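import Pool.Agent.H22.CM.Stm2
import Pool.Graph.R_seed8.Y410.PAR.EXT

set_option autoImplicit false

namespace H83.CM

open Pool.Agent.Y382.PAR H22.CM

theorem hasCM_of_allPar {G : Type} [Group G] [Finite G] (h : AllPar G) : HasCM G := by
  obtain ⟨f, F, hF, -, -⟩ := h 1 1
  exact ⟨f, F, hF⟩

theorem t_DTA (hDTR : S_DTR) (hHOLE : S_HOLE) : S_DTA := by
  intro G _ _ H g hg hd hi hP
  exact hHOLE G H (hDTR G H g hg hd hi (hasCM_of_allPar hP)) hP

theorem t_FCT (hFAC : S_FAC) (hHOLE : S_HOLE) : S_FCT := by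
  intro G _ _ K P hK hd hc hP
  exact hHOLE G P (hFAC G K P hK hd hc (hasCM_of_allPar hP)) hP

theorem t_NSO (hSOL : S_SOL) : S_NSO := by
  obtain ⟨n, hn⟩ := hSOL
  refine ⟨n, fun G _ _ N _ hsol hcard hP hQ => ?_⟩
  haveI := hsol
  exact Pool.Agent.Y410.PAR.t_EXT G N hQ (hn N hcard hP)

end H83.CM
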