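import Pool.Agent.H22.CM.Stm3

set_option autoImplicit false

namespace H83.CM

open Pool.Agent.Y382.PAR H22.CM

/-- the double coset of a left coset -/
noncomputable def dcl {G : Type} [Group G] (H : Subgroup G) (j : G ⧸ H) :
    DoubleCoset.Quotient (H : Set G) (H : Set G) := DoubleCoset.mk H H (Quotient.out j)

theorem dcl_mk {G : Type} [Group G] (H : Subgroup G) (x : G) :
    dcl H (x : G ⧸ H) = DoubleCoset.mk H H x := by
  unfold dcl
  obtain ⟨h, hh⟩ := QuotientGroup.mk_out_eq_mul H x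
  have hh' : (Quotient.out (x : G ⧸ H) : G) = x * h := hh
  rw [hh']
  symm
  rw [DoubleCoset.eq]
  exact ⟨1, H.one_mem, h, h.2, by simp⟩

theorem card_fiber {G : Type} [Group G] [Finite G] (H : Subgroup G)
    (d : DoubleCoset.Quotient (H : Set G) (H : Set G)) :
    Nat.card {x : G // DoubleCoset.mk H H x = d} = Nat.card H * Nat.card {j : G ⧸ H // dcl H j = d} := by
  rw [← Nat.card_prod]
  have e := QuotientGroup.preimageMkEquivSubgroupProdSet H {j : G ⧸ H | dcl H j = d}
  refine Nat.card_congr (Equiv.trans (Equiv.subtypeEquivRight fun x => ?_) e)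
  show DoubleCoset.mk H H x = d ↔ dcl H (x : G ⧸ H) = d
  rw [dcl_mk]

theorem t_DC2 : S_DC2 := by
  intro G _ _ H φ hφ
  have hH : 0 < Nat.card H := Nat.card_pos
  have hcard : ∀ d, Nat.card {j : G ⧸ H // dcl H j = d} = Nat.card {j : G ⧸ H // dcl H j = φ d} := by
    intro d
    have h := hφ d
    rw [card_fiber, card_fiber] at h
    exact (Nat.eq_of_mul_eq_mul_left hH h).symm
  have e : ∀ d, {j : G ⧸ H // dcl H j = d} ≃ {j : G ⧸ H // dcl H j = φ d} := fun d =>
    Classical.choice (by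
      have := Finite.card_eq.1 (hcard d)
      exact this)
  let τ : Equiv.Perm (G ⧸ H) := ((Equiv.sigmaFiberEquiv (dcl H)).symm.trans
    (Equiv.sigmaCongr φ e)).trans (Equiv.sigmaFiberEquiv (dcl H))
  have hτ : ∀ j, dcl H (τ j) = φ (dcl H j) := by
    intro j
    have : τ j = (e (dcl H j) ⟨j, rfl⟩ : {j' : G ⧸ H // dcl H j' = φ (dcl H j)}).1 := rfl
    rw [this]
    exact (e (dcl H j) ⟨j, rfl⟩).2
  refine ⟨τ, fun x y hxy => ?_⟩
  rw [← dcl_mk H y, ← hxy, hτ, dcl_mk]

end H83.CM
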